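import Mathlib

/-!
# The first homology at infinity of a finitely presented group, and a class of groups. Definitions.

A group `G` with generators `σ x`, `x ∈ X`, and relators `rel ρ`, `ρ ∈ R`. The vertices of the universal
cover of the presentation complex are the elements `g` of `G`, the edges the pairs `(g, x)`, from `g` to
`g (σ x)`, and for each `g` and `ρ` there is a two-cell whose boundary is the loop at `g` which reads the
word `rel ρ`. In a word the letter `(x, true)` stands for `x` and `(x, false)` for `x⁻¹`.
-/

namespace Pool.Agent.Helper52.HSS

noncomputable section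

/-- The group presented by the generators `X` and the relators `rel`. -/
abbrev Gp {X R : Type} (rel : R → List (X × Bool)) : Type :=
  PresentedGroup (Set.range fun ρ => FreeGroup.mk (rel ρ))

/-- The generators of the presented group. -/
def gn {X R : Type} (rel : R → List (X × Bool)) : X → Gp rel := PresentedGroup.of

variable {X R G : Type} [Group G]

/-- The end of the edge path of one letter which starts at `g`. -/
def next (σ : X → G) (g : G) (p : X × Bool) : G := if p.2 then g * σ p.1 else g * (σ p.1)⁻¹

/-- The 1-chain of the edge path of one letter which starts at `g`. -/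
def edge (σ : X → G) (g : G) (p : X × Bool) : G × X →₀ ℤ :=
  if p.2 then Finsupp.single (g, p.1) 1 else -Finsupp.single (g * (σ p.1)⁻¹, p.1) 1

/-- The vertices of the edge path which starts at `g` and reads the word `l`. -/
def vertices (σ : X → G) (g : G) (l : List (X × Bool)) : List G := l.scanl (next σ) g

/-- The 1-chain of the edge path which starts at `g` and reads the word `l`. -/
def chain (σ : X → G) (g : G) (l : List (X × Bool)) : G × X →₀ ℤ :=
  ((vertices σ g l).zipWith (edge σ) l).sum

/-- The boundary of a 1-chain: the edge `(g, x)` goes to `g (σ x) - g`. -/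
def bd (σ : X → G) (z : G × X →₀ ℤ) : G →₀ ℤ :=
  z.sum fun e n => Finsupp.single (e.1 * σ e.2) n - Finsupp.single e.1 n

/-- `z` is a 1-cycle of the subcomplex of all cells with no vertex in `C`. -/
def Z1 (σ : X → G) (C : Finset G) (z : G × X →₀ ℤ) : Prop :=
  bd σ z = 0 ∧ ∀ e ∈ z.support, e.1 ∉ C ∧ e.1 * σ e.2 ∉ C

/-- The 1-boundaries of the subcomplex of all cells with no vertex in `C`: the group generated by the
boundaries of the two-cells with no vertex in `C`. -/
def B1 (σ : X → G) (rel : R → List (X × Bool)) (C : Finset G) : AddSubgroup (G × X →₀ ℤ) :=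
  AddSubgroup.closure {z | ∃ (g : G) (ρ : R), (∀ v ∈ vertices σ g (rel ρ), v ∉ C) ∧
    z = chain σ g (rel ρ)}

/-- Semistability (the Mittag-Leffler condition) of the inverse system of the groups `H_1(U_C)`, where
`U_C` is the subcomplex of the universal cover of the presentation complex formed by the cells with no
vertex in the finite set `C`: for every `C` there is `D` such that for every larger `E` the groups
`H_1(U_D)` and `H_1(U_E)` have the same image in `H_1(U_C)`. -/
def H1Semistable (σ : X → G) (rel : R → List (X × Bool)) : Prop :=
  ∀ C : Finset G, ∃ D : Finset G, C ⊆ D ∧ ∀ E : Finset G, D ⊆ E →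
    ∀ z, Z1 σ D z → ∃ z', Z1 σ E z' ∧ z - z' ∈ B1 σ rel C

/-- `G` has exactly one end: it is infinite, and for every finite set `C` of vertices of the Cayley graph
there is a finite set `D` such that any two vertices outside `D` are joined by a path outside `C`. -/
def OneEnded (σ : X → G) : Prop :=
  Infinite G ∧ ∀ C : Finset G, ∃ D : Finset G, ∀ g ∉ D, ∀ h ∉ D,
    Relation.ReflTransGen (fun a b => a ∉ C ∧ b ∉ C ∧ ∃ x, b = a * σ x ∨ a = b * σ x) g h

/-- The conjugate subgroup `x H x⁻¹`. -/
def conjugate (x : G) (H : Subgroup G) : Subgroup G := H.map (MulAut.conj x).toMonoidHom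

/-- `H` is commensurated in `L`: `H ∩ x H x⁻¹` has finite index in `H` for all `x` in `L`. -/
def Commensurated (H L : Subgroup G) : Prop := ∀ x ∈ L, (H ⊓ conjugate x H).relIndex H ≠ 0

/-- `N` contains an infinite finitely generated subgroup. -/
def HasInfiniteFG (N : Subgroup G) : Prop := ∃ K ≤ N, K.FG ∧ Infinite K

/-- The smallest class of subgroups of `G` which contains
* the subgroups isomorphic to a finitely presented one-ended group with semistable first homology at
  infinity,
* the finitely generated subgroups `L` which have an infinite finitely generated subgroup `H` of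
  infinite index in `L` that is commensurated in `L`,

and which contains
* `⟨N, s⟩` if it contains `N` and `N ∩ s N s⁻¹` contains an infinite finitely generated subgroup,
* `⟨N, N'⟩` if it contains `N` and `N'` and `N ∩ N'` contains an infinite finitely generated subgroup,
* the union of each nonempty directed family of its members. -/
inductive Good : Subgroup G → Prop
  | semistable {X R : Type} [Finite X] [Finite R] (rel : R → List (X × Bool)) (L : Subgroup G)
      (e : Gp rel ≃* L) (h1 : OneEnded (gn rel)) (h2 : H1Semistable (gn rel) rel) : Good L
  | commensurated (L H : Subgroup G) (hL : L.FG) (hH : H.FG) (hinf : Infinite H) (hHL : H ≤ L)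
      (hidx : H.relIndex L = 0) (hc : Commensurated H L) : Good L
  | adjoin (N : Subgroup G) (s : G) (hN : Good N) (h : HasInfiniteFG (N ⊓ conjugate s N)) :
      Good (N ⊔ Subgroup.zpowers s)
  | join (N N' : Subgroup G) (hN : Good N) (hN' : Good N') (h : HasInfiniteFG (N ⊓ N')) :
      Good (N ⊔ N')
  | union (Y : Set (Subgroup G)) (hY : Y.Nonempty) (hd : DirectedOn (· ≤ ·) Y)
      (h : ∀ N ∈ Y, Good N) : Good (sSup Y)

end

end Pool.Agent.Helper52.HSS
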