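import Pool.Agent.Helper52.HSS.Defs
import Pool.Agent.Helper52.HS.Main

/-!
# Project HS (MP_db811f_gt): the main theorem in terms of the definitions of `HSS.Defs`
-/

namespace Pool.Agent.Helper52.HSS

open Pool.Agent.Helper39

variable {X R G : Type} [Group G]

theorem vs_eq (σ : X → G) (l : List (X × Bool)) : ∀ g, AH.vs σ l g = vertices σ g l := by
  induction l with
  | nil => intro g; simp [AH.vs, vertices]
  | cons p l ih =>
    intro g
    obtain ⟨x, b⟩ := p
    cases b
    · simp only [AH.vs, ih, vertices, List.scanl_cons, next]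
      simp
    · simp only [AH.vs, ih, vertices, List.scanl_cons, next]
      simp

theorem ch_eq (σ : X → G) (l : List (X × Bool)) : ∀ g, AH.ch σ l g = chain σ g l := by
  induction l with
  | nil => intro g; simp [AH.ch, chain, vertices]
  | cons p l ih =>
    intro g
    obtain ⟨x, b⟩ := p
    cases b
    · simp only [AH.ch, ih, chain, vertices, List.scanl_cons, List.zipWith_cons_cons, List.sum_cons]
      simp [next, edge, sub_eq_neg_add]
    · simp only [AH.ch, ih, chain, vertices, List.scanl_cons, List.zipWith_cons_cons, List.sum_cons]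
      simp [next, edge]

theorem B1_eq (σ : X → G) (rel : R → List (X × Bool)) (C : Finset G) :
    AH.B1 σ rel C = B1 σ rel C := by
  unfold AH.B1 B1
  simp only [ch_eq, vs_eq]

theorem semistable_iff (rel : R → List (X × Bool)) :
    AH.H1Semistable rel ↔ H1Semistable (gn rel) rel := by
  constructor
  · intro h C
    obtain ⟨D, hCD, hD⟩ := h C
    refine ⟨D, hCD, fun E hE z hz => ?_⟩
    obtain ⟨z', hz', hB⟩ := hD E hE z hz
    rw [B1_eq] at hB
    exact ⟨z', hz', hB⟩
  · intro h C
    obtain ⟨D, hCD, hD⟩ := h C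
    refine ⟨D, hCD, fun E hE z hz => ?_⟩
    obtain ⟨z', hz', hB⟩ := hD E hE z hz
    refine ⟨z', hz', ?_⟩
    rw [B1_eq]
    exact hB

theorem oneEnded (rel : R → List (X × Bool)) (h : OneEnded (gn rel)) :
    Helper52.HS.OneEnded rel := by
  refine ⟨h.1, fun C => ?_⟩
  obtain ⟨D, hD⟩ := h.2 C
  exact ⟨D, fun x y hx hy => hD x hx y hy⟩

theorem good {N : Subgroup G} (h : Good N) : Helper52.HS.Good N := by
  induction h with
  | semistable rel L e h1 h2 => exact .semi rel L e (oneEnded rel h1) ((semistable_iff rel).2 h2)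
  | commensurated L H hL hH hinf hHL hidx hc => exact .comm L H hL hHL hH hinf hidx hc
  | adjoin N s _ h ih =>
    obtain ⟨K, hK, hfg, hinf⟩ := h
    refine .conj N K s ih hfg hinf (hK.trans inf_le_left) fun k hk => ?_
    obtain ⟨n, hn, rfl⟩ := Subgroup.mem_map.1 (hK hk).2
    simpa [mul_assoc] using hn
  | join N N' _ _ h ih ih' =>
    obtain ⟨K, hK, hfg, hinf⟩ := h
    exact .join N N' K ih ih' hfg hinf (hK.trans inf_le_left) (hK.trans inf_le_right)
  | union Y hY hd _ ih => exact .union Y hY hd ih

theorem main [Finite X] [Finite R] (rel : R → List (X × Bool)) (h : Good (⊤ : Subgroup (Gp rel))) :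
    H1Semistable (gn rel) rel :=
  (semistable_iff rel).1 (Helper52.HS.main rel (good h))

end Pool.Agent.Helper52.HSS
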